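import Pool.Agent.MP_9e8696_an.H67.Hyper

/-! The junta lemma of Friedgut on a finite cube. -/

set_option linter.unusedSectionVars false

namespace Pool.Agent.MP_887f27_pr.H6

open Finset Pool.Agent.MP_9e8696_an.H67

variable {ι : Type} [Fintype ι] [DecidableEq ι]

/-- Number of points of the cube. -/
noncomputable def NN (ι : Type) [Fintype ι] [DecidableEq ι] : ℝ := Fintype.card (ι → Bool)

lemma NN_pos : 0 < NN ι := by
  unfold NN; exact_mod_cast Fintype.card_pos

/-- The function with coefficients `a`. -/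
def ev (a : Finset ι → ℝ) (x : ι → Bool) : ℝ := ∑ S, a S * chi S x

lemma chi_flip_mem (S : Finset ι) (h : ι) (hh : h ∈ S) (x : ι → Bool) :
    chi S (flipAt h x) = - chi S x := by
  have e : S = insert h (S.erase h) := (insert_erase hh).symm
  have hn : h ∉ S.erase h := notMem_erase h S
  have h1 := chi_flipAt (S.erase h) h hn x
  unfold chi at h1 ⊢
  rw [e, prod_insert hn, prod_insert hn, h1]
  have : flipAt h x h = !x h := by simp [flipAt]
  rw [this, sg_not]; ring

lemma chi_sq (S : Finset ι) (x : ι → Bool) : chi S x * chi S x = 1 := by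
  unfold chi
  rw [← prod_mul_distrib]
  exact prod_eq_one fun i _ => sg_sq _

lemma orth (S T : Finset ι) : ∑ x, chi S x * chi T x = if S = T then NN ι else 0 := by
  split_ifs with h
  · subst h
    simp [chi_sq, NN]
  · have key : ∀ S T : Finset ι, ∀ i, i ∈ S → i ∉ T → ∑ x, chi S x * chi T x = 0 := by
      intro S T i hi hi'
      have : ∑ x, chi S x * chi T x = ∑ x, - (chi S x * chi T x) := by
        rw [← Equiv.sum_comp (flipAt_invol i).toPerm]
        refine sum_congr rfl fun x _ => ?_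
        simp only [Function.Involutive.coe_toPerm]
        rw [chi_flip_mem S i hi, chi_flipAt T i hi']; ring
      rw [sum_neg_distrib] at this
      linarith
    by_cases h1 : S ⊆ T
    · have h2 : ¬ T ⊆ S := fun h2 => h (Subset.antisymm h1 h2)
      obtain ⟨i, hi, hi'⟩ := not_subset.1 h2
      rw [← key T S i hi hi']
      exact sum_congr rfl fun x _ => mul_comm _ _
    · obtain ⟨i, hi, hi'⟩ := not_subset.1 h1
      exact key S T i hi hi'

lemma parseval (a b : Finset ι → ℝ) : ∑ x, ev a x * ev b x = NN ι * ∑ S, a S * b S := by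
  unfold ev
  simp only [sum_mul_sum]
  rw [sum_comm, mul_sum]
  refine sum_congr rfl fun S _ => ?_
  rw [sum_comm]
  have : ∀ T, ∑ x, a S * chi S x * (b T * chi T x) =
      a S * b T * if S = T then NN ι else 0 := by
    intro T
    rw [← orth, mul_sum]
    exact sum_congr rfl fun x _ => by ring
  simp only [this, mul_ite, mul_zero, sum_ite_eq, mem_univ, if_true]
  ring

lemma dual (x y : ι → Bool) : ∑ S : Finset ι, chi S x * chi S y = if x = y then NN ι else 0 := by
  have : ∑ S : Finset ι, chi S x * chi S y = ∏ i, (1 + sg (x i) * sg (y i)) := by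
    rw [prod_one_add, powerset_univ]
    refine sum_congr rfl fun S _ => ?_
    unfold chi
    rw [prod_mul_distrib]
  rw [this]
  split_ifs with h
  · subst h
    simp only [sg_sq, NN]
    simp
    norm_num
  · obtain ⟨i, hi⟩ := Function.ne_iff.1 h
    refine prod_eq_zero (mem_univ i) ?_
    revert hi
    cases x i <;> cases y i <;> simp [sg]

lemma exists_coef (f : (ι → Bool) → ℝ) : ∃ c : Finset ι → ℝ, ∀ x, f x = ev c x := by
  refine ⟨fun S => (∑ y, f y * chi S y) / NN ι, fun x => ?_⟩
  have hN := (NN_pos (ι := ι)).ne'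
  unfold ev
  have : ∀ S : Finset ι, (∑ y, f y * chi S y) / NN ι * chi S x =
      ∑ y, f y / NN ι * (chi S y * chi S x) := by
    intro S
    rw [sum_div, sum_mul]
    exact sum_congr rfl fun y _ => by ring
  simp only [this]
  rw [sum_comm]
  simp only [← mul_sum, dual, mul_ite, mul_zero, sum_ite_eq', mem_univ, if_true]
  field_simp

lemma ev_deriv (c : Finset ι → ℝ) (h : ι) (x : ι → Bool) :
    ev c x - ev c (flipAt h x) = 2 * ev (fun S => if h ∈ S then c S else 0) x := by
  unfold ev
  rw [← sum_sub_distrib, mul_sum]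
  refine sum_congr rfl fun S _ => ?_
  beta_reduce
  split_ifs with hS
  · rw [chi_flip_mem S h hS]; ring
  · rw [chi_flipAt S h hS]; ring

/-- Low degree part of the derivative of a Boolean function. -/
lemma low_bound (a : Finset ι → ℝ) (ha : ∀ x, ev a x = 0 ∨ ev a x ^ 2 = 1 / 4) (d : ℕ)
    (P : Finset ι → Prop) [DecidablePred P] (hP : ∀ S, P S → S.card ≤ d) :
    (∑ S, if P S then a S ^ 2 else 0) ^ 2 ≤ 4 * 64 ^ d * (∑ S, a S ^ 2) ^ 3 := by
  set L := ∑ S, if P S then a S ^ 2 else 0 with hL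
  set I := ∑ S, a S ^ 2 with hI
  set b : Finset ι → ℝ := fun S => if P S then a S else 0 with hb
  have hN := NN_pos (ι := ι)
  have hL0 : 0 ≤ L := sum_nonneg fun S _ => by split_ifs <;> positivity
  have hI0 : 0 ≤ I := sum_nonneg fun S _ => sq_nonneg _
  have e1 : ∑ x, ev b x * ev a x = NN ι * L := by
    rw [parseval, hL]
    congr 1
    refine sum_congr rfl fun S _ => ?_
    simp only [hb]
    split_ifs <;> ring
  have e2 : ∑ x, ev a x ^ 2 = NN ι * I := by
    have := parseval a a
    simpa only [← sq] using this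
  have e3 : ∑ x, ev b x ^ 4 ≤ NN ι * (8 ^ d * L) ^ 2 := by
    have h1 := hyper 2 (by norm_num) b
    refine h1.trans ?_
    refine mul_le_mul_of_nonneg_left ?_ hN.le
    refine pow_le_pow_left₀ (sum_nonneg fun S _ => by positivity) ?_ 2
    rw [hL, mul_sum]
    refine sum_le_sum fun S _ => ?_
    simp only [hb]
    split_ifs with hS
    · refine mul_le_mul_of_nonneg_right ?_ (sq_nonneg _)
      have : (4 * (2 : ℕ) : ℝ) = 8 := by norm_num
      rw [this]
      exact pow_le_pow_right₀ (by norm_num) (hP S hS)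
    · simp
  -- the indicator of the support is `4 * ev a x ^ 2`
  have c1 : (∑ x, ev b x * ev a x) ^ 2 ≤
      (∑ x, (ev b x * (4 * ev a x ^ 2)) ^ 2) * ∑ x, ev a x ^ 2 := by
    have := sum_mul_sq_le_sq_mul_sq univ (fun x => ev b x * (4 * ev a x ^ 2)) (fun x => ev a x)
    refine le_trans (le_of_eq ?_) this
    congr 1
    refine sum_congr rfl fun x _ => ?_
    rcases ha x with h | h
    · rw [h]; ring
    · rw [h]; ring
  have c2 : (∑ x, (ev b x * (4 * ev a x ^ 2)) ^ 2) ^ 2 ≤
      (∑ x, ev b x ^ 4) * (4 * ∑ x, ev a x ^ 2) := by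
    have := sum_mul_sq_le_sq_mul_sq univ (fun x => ev b x ^ 2) (fun x => 4 * ev a x ^ 2)
    refine le_trans (le_of_eq ?_) (this.trans (le_of_eq ?_))
    · congr 1
      refine sum_congr rfl fun x _ => ?_
      rcases ha x with h | h
      · rw [h]; ring
      · rw [h]; ring
    · congr 1
      · exact sum_congr rfl fun x _ => by ring
      · rw [mul_sum]
        refine sum_congr rfl fun x _ => ?_
        rcases ha x with h | h
        · rw [h]; ring
        · rw [h]; ring
  rw [e1, e2] at c1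
  rw [e2] at c2
  set Q := ∑ x, (ev b x * (4 * ev a x ^ 2)) ^ 2 with hQ
  have hQ0 : 0 ≤ Q := sum_nonneg fun x _ => sq_nonneg _
  have c3 : Q ^ 2 ≤ NN ι * (8 ^ d * L) ^ 2 * (4 * (NN ι * I)) :=
    c2.trans (mul_le_mul_of_nonneg_right e3 (by positivity))
  have c4 : ((NN ι * L) ^ 2) ^ 2 ≤ (Q * (NN ι * I)) ^ 2 :=
    pow_le_pow_left₀ (by positivity) c1 2
  have c5 : (Q * (NN ι * I)) ^ 2 ≤ NN ι * (8 ^ d * L) ^ 2 * (4 * (NN ι * I)) * (NN ι * I) ^ 2 := by
    rw [mul_pow]
    exact mul_le_mul_of_nonneg_right c3 (by positivity)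
  have h64 : (64 : ℝ) ^ d = (8 ^ d) ^ 2 := by
    rw [← pow_mul, mul_comm, pow_mul]; norm_num
  rcases hL0.eq_or_lt with h0 | h0
  · rw [← h0]
    have : 0 ≤ 4 * 64 ^ d * I ^ 3 := by positivity
    simpa using this
  · have c6 : (NN ι ^ 4 * L ^ 2) * L ^ 2 ≤ (NN ι ^ 4 * L ^ 2) * (4 * 64 ^ d * I ^ 3) := by
      rw [h64]
      calc _ = ((NN ι * L) ^ 2) ^ 2 := by ring
        _ ≤ _ := c4.trans c5
        _ = _ := by ring
    exact le_of_mul_le_mul_left c6 (by positivity)

theorem junta_fin (M ε : ℝ) (hM : 0 ≤ M) (hε : 0 < ε) : ∃ s : ℕ,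
    ∀ (ι : Type) [Fintype ι] [DecidableEq ι] (f : (ι → Bool) → ℝ), (∀ x, f x = 0 ∨ f x = 1) →
      ∑ h, ∑ x, (f x - f (flipAt h x)) ^ 2 ≤ M * NN ι →
      ∃ J : Finset ι, J.card ≤ s ∧ ∃ u : (ι → Bool) → ℝ,
        (∀ x y, (∀ i ∈ J, x i = y i) → u x = u y) ∧ ∑ x, (f x - u x) ^ 2 ≤ ε * NN ι := by
  obtain ⟨d, hd⟩ := exists_nat_ge (M / ε)
  have hd' : M ≤ ε * d := by rwa [div_le_iff₀' hε] at hd
  set δ : ℝ := ε / (M + 1) with hδ
  have hδ0 : 0 < δ := by positivity
  have hδM : δ * M ≤ ε := by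
    rw [hδ, div_mul_eq_mul_div, div_le_iff₀ (by positivity)]; nlinarith
  set τ : ℝ := δ ^ 2 / (4 * 64 ^ d) with hτ
  have hτ0 : 0 < τ := by positivity
  obtain ⟨s, hs⟩ := exists_nat_ge (M / τ)
  refine ⟨s, fun ι _ _ f hf hI => ?_⟩
  obtain ⟨c, hc⟩ := exists_coef f
  have hN := NN_pos (ι := ι)
  set a : ι → Finset ι → ℝ := fun h S => if h ∈ S then c S else 0 with ha
  set I : ι → ℝ := fun h => ∑ S, a h S ^ 2 with hIdef
  have hI0 : ∀ h, 0 ≤ I h := fun h => sum_nonneg fun S _ => sq_nonneg _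
  have hder : ∀ h x, f x - f (flipAt h x) = 2 * ev (a h) x := fun h x => by
    rw [hc, hc, ev_deriv]
  have hsum : 4 * ∑ h, I h ≤ M := by
    have : ∑ h, ∑ x, (f x - f (flipAt h x)) ^ 2 = (4 * ∑ h, I h) * NN ι := by
      rw [mul_sum, sum_mul]
      refine sum_congr rfl fun h _ => ?_
      have := parseval (a h) (a h)
      simp only [← sq] at this
      simp only [hder, mul_pow, ← mul_sum, this, hIdef]
      ring
    rw [this] at hI
    exact le_of_mul_le_mul_right hI hN
  have hval : ∀ h x, ev (a h) x = 0 ∨ ev (a h) x ^ 2 = 1 / 4 := by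
    intro h x
    have := hder h x
    rcases hf x with h1 | h1 <;> rcases hf (flipAt h x) with h2 | h2 <;> rw [h1, h2] at this
    · left; linarith
    · right; have : ev (a h) x = -1 / 2 := by linarith
      rw [this]; norm_num
    · right; have : ev (a h) x = 1 / 2 := by linarith
      rw [this]; norm_num
    · left; linarith
  set J : Finset ι := univ.filter fun h => τ ≤ I h with hJ
  have hS0 : 0 ≤ ∑ h, I h := sum_nonneg fun h _ => hI0 h
  refine ⟨J, ?_, ev fun S => if S ⊆ J then c S else 0, ?_, ?_⟩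
  · have h1 : (J.card : ℝ) * τ ≤ ∑ h, I h := by
      calc (J.card : ℝ) * τ = ∑ h ∈ J, τ := by simp
        _ ≤ ∑ h ∈ J, I h := sum_le_sum fun h hh => (mem_filter.1 hh).2
        _ ≤ ∑ h, I h := sum_le_sum_of_subset_of_nonneg (subset_univ _) fun h _ _ => hI0 h
    have h2 : (J.card : ℝ) ≤ M / τ := by
      rw [le_div_iff₀ hτ0]; linarith
    exact_mod_cast h2.trans hs
  · intro x y hxy
    unfold ev
    refine sum_congr rfl fun S _ => ?_
    beta_reduce
    split_ifs with hS
    · congr 1
      unfold chi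
      exact prod_congr rfl fun i hi => by rw [hxy i (hS hi)]
    · simp
  · set r : Finset ι → ℝ := fun S => if S ⊆ J then 0 else c S with hr
    have e1 : ∀ x, f x - ev (fun S => if S ⊆ J then c S else 0) x = ev r x := by
      intro x
      rw [hc]
      unfold ev
      rw [← sum_sub_distrib]
      refine sum_congr rfl fun S _ => ?_
      simp only [hr]
      split_ifs <;> ring
    have e2 := parseval r r
    simp only [← sq] at e2
    simp only [e1, e2]
    rw [mul_comm]
    refine mul_le_mul_of_nonneg_right ?_ hN.le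
    set L : ι → ℝ := fun h => ∑ S, if S.card ≤ d then a h S ^ 2 else 0 with hLdef
    have hL : ∀ h, h ∉ J → L h ≤ δ * I h := by
      intro h hh
      have h1 : I h < τ := by simpa [hJ] using hh
      have h2 := low_bound (a h) (hval h) d (fun S => S.card ≤ d) (fun S hS => hS)
      have h3 : 4 * 64 ^ d * τ = δ ^ 2 := by rw [hτ]; field_simp
      have h4 : 4 * 64 ^ d * I h ^ 3 ≤ (δ * I h) ^ 2 := by
        rw [mul_pow, ← h3]
        have : (0 : ℝ) ≤ 4 * 64 ^ d * I h ^ 2 := by positivity
        nlinarith [mul_le_mul_of_nonneg_left h1.le this]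
      exact (pow_le_pow_iff_left₀ (sum_nonneg fun S _ => by split_ifs <;> positivity)
        (mul_nonneg hδ0.le (hI0 h)) two_ne_zero).1 (h2.trans h4)
    have hcard : ∑ h, I h = ∑ S : Finset ι, (S.card : ℝ) * c S ^ 2 := by
      simp only [hIdef]
      rw [sum_comm]
      refine sum_congr rfl fun S _ => ?_
      simp only [ha, ite_pow]
      simp
    have e3 : ((d : ℝ) + 1) * ∑ S, r S ^ 2 ≤
        ∑ S : Finset ι, (S.card : ℝ) * c S ^ 2 + (d + 1) * ∑ h ∈ Jᶜ, L h := by
      simp only [hLdef]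
      rw [sum_comm, mul_sum, mul_sum, ← sum_add_distrib]
      refine sum_le_sum fun S _ => ?_
      have hnn : 0 ≤ ∑ h ∈ Jᶜ, if S.card ≤ d then a h S ^ 2 else 0 :=
        sum_nonneg fun h _ => by split_ifs <;> positivity
      simp only [hr]
      by_cases hS : S ⊆ J
      · simp only [hS, if_true]
        have : (0 : ℝ) ≤ S.card * c S ^ 2 := by positivity
        nlinarith
      · simp only [hS, if_false]
        by_cases hd2 : S.card ≤ d
        · obtain ⟨i, hi, hi'⟩ := not_subset.1 hS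
          have : c S ^ 2 ≤ ∑ h ∈ Jᶜ, if S.card ≤ d then a h S ^ 2 else 0 := by
            have h3 := single_le_sum (f := fun h => if S.card ≤ d then a h S ^ 2 else 0)
              (s := Jᶜ) (fun h _ => by split_ifs <;> positivity) (mem_compl.2 hi')
            simpa [hd2, ha, hi] using h3
          have h4 : (0 : ℝ) ≤ S.card * c S ^ 2 := by positivity
          have h5 : (0 : ℝ) ≤ d + 1 := by positivity
          nlinarith
        · have h3 : (d : ℝ) + 1 ≤ S.card := by exact_mod_cast not_le.1 hd2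
          have h5 : (0 : ℝ) ≤ d + 1 := by positivity
          nlinarith [sq_nonneg (c S)]
    have e4 : ∑ h ∈ Jᶜ, L h ≤ δ * ∑ h, I h := by
      calc ∑ h ∈ Jᶜ, L h ≤ ∑ h ∈ Jᶜ, δ * I h := sum_le_sum fun h hh => hL h (mem_compl.1 hh)
        _ ≤ ∑ h, δ * I h := sum_le_sum_of_subset_of_nonneg (subset_univ _)
            fun h _ _ => mul_nonneg hδ0.le (hI0 h)
        _ = _ := by rw [mul_sum]
    rw [← hcard] at e3
    have h5 : (0 : ℝ) < d + 1 := by positivity
    have e5 : δ * ∑ h, I h ≤ ε / 4 := by nlinarith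
    have e6 : ((d : ℝ) + 1) * ∑ S, r S ^ 2 ≤ (d + 1) * ε := by nlinarith
    exact le_of_mul_le_mul_left e6 h5

end Pool.Agent.MP_887f27_pr.H6
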