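import Pool.Agent.MP_887f27_pr.H69.Spec
import Pool.Agent.MP_887f27_pr.H6.Cube

/-! The junta lemma of Friedgut for local events. -/

namespace Pool.Agent.MP_887f27_pr.H6

open MeasureTheory Set Pool.Agent.MP_887f27_pr.H69 Pool.Agent.MP_9e8696_an.H67
open Pool.Agent.MP_77ae5d_pr.H74 (Dep)
open scoped ENNReal symmDiff

open Classical in
/-- Extension by `false` of a configuration on a finite set. -/
noncomputable def extd (H : Finset V) (x : H → Bool) : Cfg :=
  fun v => if hv : v ∈ H then x ⟨v, hv⟩ else false

lemma extd_mem (H : Finset V) (x : H → Bool) (v : H) : extd H x v = x v := by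
  simp [extd, v.2]

lemma extd_update (H : Finset V) (x : H → Bool) (h : H) (c : Bool) :
    extd H (Function.update x h c) = Function.update (extd H x) h c := by
  funext v
  by_cases hv : v = h
  · subst hv
    rw [extd_mem]; simp
  · rw [Function.update_of_ne hv]
    unfold extd
    split_ifs with h1
    · rw [Function.update_of_ne]
      intro e
      exact hv (congrArg Subtype.val e)
    · rfl

open Classical in
lemma real_eq (H : Finset V) (E : Set Cfg) (hE : Dep E (H : Set V)) :
    pi0.real E * NN H = ∑ x : H → Bool, if extd H x ∈ E then 1 else 0 := by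
  set T : Finset (H → Bool) := Finset.univ.filter fun x => extd H x ∈ E with hT
  have e1 : E = H.restrict ⁻¹' (T : Set (H → Bool)) := by
    ext b
    simp only [mem_preimage, hT, Finset.coe_filter, Finset.mem_univ, true_and, mem_ofPred_eq]
    have : ∀ i ∈ (H : Set V), b i = extd H (H.restrict b) i := fun i hi =>
      (extd_mem H (H.restrict b) ⟨i, hi⟩).symm
    exact ⟨hE _ _ this, hE _ _ fun i hi => (this i hi).symm⟩
  have e2 : pi0 E = Measure.pi (fun _ : H => ber (1 / 2)) (T : Set (H → Bool)) := by
    rw [← Measure.infinitePi_map_restrict (μ := fun _ : V => ber (1 / 2)) (I := H),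
      Measure.map_apply (Finset.measurable_restrict H) (Set.toFinite _).measurableSet, ← e1]
    rfl
  have e3 : ∀ x : H → Bool, (Measure.pi (fun _ : H => ber (1 / 2))).real {x} * NN H = 1 := by
    intro x
    rw [measureReal_def, ← Set.univ_pi_singleton, Measure.pi_pi]
    simp only [ber_half, NN]
    simp
  rw [measureReal_def, e2, ← measureReal_def, ← sum_measureReal_singleton, Finset.sum_mul]
  simp only [e3, hT]
  rw [Finset.sum_filter]

theorem junta : JuntaStmt := by
  classical
  intro M ε hM hε
  obtain ⟨e, he0, he⟩ : ∃ e : ℝ, 0 < e ∧ ENNReal.ofReal e ≤ ε := by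
    by_cases h : ε = ⊤
    · exact ⟨1, one_pos, by simp [h]⟩
    · exact ⟨ε.toReal, ENNReal.toReal_pos hε h, by rw [ENNReal.ofReal_toReal h]⟩
  obtain ⟨s, hs⟩ := junta_fin M.toReal (e / 4) ENNReal.toReal_nonneg (by positivity)
  refine ⟨s, ?_⟩
  rintro A ⟨H, hA⟩ hsum
  set P : V → Set Cfg := fun h =>
    {b | ¬ (Function.update b h false ∈ A ↔ Function.update b h true ∈ A)} with hP
  have hPd : ∀ h, Dep (P h) (H : Set V) := by
    intro h b b' hb hh
    have : ∀ c, ∀ i ∈ (H : Set V), Function.update b h c i = Function.update b' h c i := by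
      intro c i hi
      by_cases e : i = h
      · subst e; simp
      · simp [Function.update_of_ne e, hb i hi]
    have k : ∀ c, Function.update b h c ∈ A ↔ Function.update b' h c ∈ A := fun c =>
      ⟨hA _ _ (this c), hA _ _ fun i hi => (this c i hi).symm⟩
    simp only [hP, mem_ofPred_eq] at hh ⊢
    rw [← k, ← k]; exact hh
  set f : (H → Bool) → ℝ := fun x => if extd H x ∈ A then 1 else 0 with hf
  have hN := NN_pos (ι := H)
  have hinf : ∑ h : H, ∑ x, (f x - f (flipAt h x)) ^ 2 ≤ M.toReal * NN H := by
    have e1 : ∀ h : H, ∑ x, (f x - f (flipAt h x)) ^ 2 = pi0.real (P h) * NN H := by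
      intro h
      rw [real_eq H _ (hPd h)]
      refine Finset.sum_congr rfl fun x _ => ?_
      have e2 : extd H x ∈ A ↔ Function.update (extd H x) h (x h) ∈ A := by
        rw [← extd_mem H x h]; simp
      simp only [hf, flipAt, extd_update, hP, mem_ofPred_eq]
      revert e2
      cases x h <;> by_cases h1 : Function.update (extd H x) h false ∈ A <;>
        by_cases h2 : Function.update (extd H x) h true ∈ A <;> intro e2 <;>
        simp [h1, h2, e2]
    simp only [e1]
    rw [← Finset.sum_mul]
    refine mul_le_mul_of_nonneg_right ?_ hN.le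
    rw [Finset.sum_coe_sort H (fun h => pi0.real (P h))]
    simp only [measureReal_def]
    rw [← ENNReal.toReal_sum (fun h _ => measure_ne_top _ _)]
    exact ENNReal.toReal_mono hM ((ENNReal.sum_le_tsum H).trans hsum)
  obtain ⟨J, hJ, u, hu, hfu⟩ := hs H f (fun x => by simp only [hf]; split_ifs <;> simp) hinf
  set B : Set Cfg := {b | 1 / 2 ≤ u (H.restrict b)} with hB
  have hBd : Dep B ((J.map (Function.Embedding.subtype _) : Finset V) : Set V) := by
    intro b b' hb hh
    simp only [hB, mem_ofPred_eq] at hh ⊢
    rw [← hu (H.restrict b) (H.restrict b')]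
    · exact hh
    · intro i hi
      exact hb i (Finset.mem_coe.2 (Finset.mem_map_of_mem _ hi))
  have hBH : Dep B (H : Set V) := hBd.mono fun v hv => by
    obtain ⟨i, _, rfl⟩ := Finset.mem_map.1 (Finset.mem_coe.1 hv)
    exact i.2
  refine ⟨J.map (Function.Embedding.subtype _), by rwa [Finset.card_map], B, hBd, ?_⟩
  have hD : Dep (A ∆ B) (H : Set V) := by
    intro b b' hb hh
    have hb' : ∀ i ∈ (H : Set V), b' i = b i := fun i hi => (hb i hi).symm
    rcases hh with ⟨h1, h2⟩ | ⟨h1, h2⟩
    · exact Or.inl ⟨hA _ _ hb h1, fun h => h2 (hBH _ _ hb' h)⟩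
    · exact Or.inr ⟨hBH _ _ hb h1, fun h => h2 (hA _ _ hb' h)⟩
  have hres : ∀ x : H → Bool, H.restrict (extd H x) = x := fun x => funext fun i => extd_mem H x i
  have key : pi0.real (A ∆ B) * NN H ≤ e * NN H := by
    rw [real_eq H _ hD]
    have : (∑ x : H → Bool, if extd H x ∈ A ∆ B then (1 : ℝ) else 0) ≤
        ∑ x, 4 * (f x - u x) ^ 2 := by
      refine Finset.sum_le_sum fun x _ => ?_
      split_ifs with hx
      · rcases hx with ⟨h1, h2⟩ | ⟨h1, h2⟩
        · simp only [hB, mem_ofPred_eq, hres, not_le] at h2
          simp only [hf, h1, if_true]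
          nlinarith
        · simp only [hB, mem_ofPred_eq, hres] at h1
          simp only [hf, h2, if_false]
          nlinarith
      · positivity
    rw [← Finset.mul_sum] at this
    linarith
  have k2 : pi0.real (A ∆ B) ≤ e := le_of_mul_le_mul_right key hN
  refine le_trans ?_ he
  rw [← ofReal_measureReal (measure_ne_top _ _)]
  exact ENNReal.ofReal_le_ofReal k2

end Pool.Agent.MP_887f27_pr.H6
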